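import Pool.Agent.Y491.WG.CX
import Pool.Agent.Y491.WG.CY

/-!
# A poset all of whose average height gaps exceed 7/8

Saks (1985) showed that a constant `γ` as in Q1 satisfies `γ ≤ 0.133`.  There is a finite poset with
52 elements and of width two in which any two distinct elements have average heights that differ by
more than `7/8` (the least difference is `0.87539...`).  Hence every `γ` as in Q1 satisfies
`γ < 1/8`.

The poset consists of two chains of 26 elements each.  Its linear extensions are lattice paths, and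
the average heights are obtained from the numbers of paths by a finite computation.
-/

set_option autoImplicit false

namespace Pool.Agent.Results.MP_6e2e82_co.GapUpperBound

theorem result :
    (∃ (α : Type) (_ : Fintype α) (_ : PartialOrder α), Fintype.card α = 52 ∧
      (∀ s : Finset α, IsAntichain (· ≤ ·) (s : Set α) → s.card ≤ 2) ∧
      (∃ a b : α, ¬ a ≤ b ∧ ¬ b ≤ a) ∧
      ∀ L : Finset (α ≃ Fin (Fintype.card α)),
        (∀ f : α ≃ Fin (Fintype.card α), f ∈ L ↔ ∀ x y : α, x < y → f x < f y) →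
        ∀ x y : α, x ≠ y →
          0 ≤ (∑ f ∈ L, ((f y : ℕ) : ℝ)) / (L.card : ℝ)
              - (∑ f ∈ L, ((f x : ℕ) : ℝ)) / (L.card : ℝ) →
          7 / 8 < (∑ f ∈ L, ((f y : ℕ) : ℝ)) / (L.card : ℝ)
              - (∑ f ∈ L, ((f x : ℕ) : ℝ)) / (L.card : ℝ)) ∧
    ∀ γ : ℝ,
      (∀ (α : Type) [Fintype α] [PartialOrder α],
        (∃ a b : α, ¬ a ≤ b ∧ ¬ b ≤ a) →
        ∀ L : Finset (α ≃ Fin (Fintype.card α)),
          (∀ f : α ≃ Fin (Fintype.card α), f ∈ L ↔ ∀ x y : α, x < y → f x < f y) →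
          ∃ x y : α, x ≠ y ∧
            0 ≤ (∑ f ∈ L, ((f y : ℕ) : ℝ)) / (L.card : ℝ)
                - (∑ f ∈ L, ((f x : ℕ) : ℝ)) / (L.card : ℝ) ∧
            (∑ f ∈ L, ((f y : ℕ) : ℝ)) / (L.card : ℝ)
                - (∑ f ∈ L, ((f x : ℕ) : ℝ)) / (L.card : ℝ) ≤ 1 - γ) →
      γ < 1 / 8 := by
  have h1 : ∃ (α : Type) (_ : Fintype α) (_ : PartialOrder α), Fintype.card α = 52 ∧
      (∀ s : Finset α, IsAntichain (· ≤ ·) (s : Set α) → s.card ≤ 2) ∧
      (∃ a b : α, ¬ a ≤ b ∧ ¬ b ≤ a) ∧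
      ∀ L : Finset (α ≃ Fin (Fintype.card α)),
        (∀ f : α ≃ Fin (Fintype.card α), f ∈ L ↔ ∀ x y : α, x < y → f x < f y) →
        ∀ x y : α, x ≠ y →
          0 ≤ (∑ f ∈ L, ((f y : ℕ) : ℝ)) / (L.card : ℝ)
              - (∑ f ∈ L, ((f x : ℕ) : ℝ)) / (L.card : ℝ) →
          7 / 8 < (∑ f ∈ L, ((f y : ℕ) : ℝ)) / (L.card : ℝ)
              - (∑ f ∈ L, ((f x : ℕ) : ℝ)) / (L.card : ℝ) := by
    refine ⟨Pool.Agent.Y491.WG.TT.W, inferInstance, inferInstance,
      Pool.Agent.Y491.WG.TT.card_W, Pool.Agent.Y491.WG.TT.antichain_card, ?_, ?_⟩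
    · refine ⟨Pool.Agent.Y491.WG.TT.X 12, Pool.Agent.Y491.WG.TT.Y 12, ?_, ?_⟩
      · rw [Pool.Agent.W853.TC.X_le_Y]
        decide +kernel
      · rw [Pool.Agent.W853.TC.Y_le_X]
        decide +kernel
    · exact Pool.Agent.Y491.WG.gaps Pool.Agent.Y491.WG.TT _ _ _ Pool.Agent.Y491.WG.num_TT
        (by norm_num) Pool.Agent.Y491.WG.hX Pool.Agent.Y491.WG.hY Pool.Agent.Y491.WG.sep
  refine ⟨h1, fun γ hγ => ?_⟩
  obtain ⟨α, i1, i2, -, -, h2, h3⟩ := h1
  classical
  obtain ⟨x, y, hxy, h4, h5⟩ := @hγ α i1 i2 h2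
    (Finset.univ.filter fun f : α ≃ Fin (Fintype.card α) => ∀ x y : α, x < y → f x < f y)
    (fun f => by rw [Finset.mem_filter]; simp)
  have h6 := h3 (Finset.univ.filter fun f : α ≃ Fin (Fintype.card α) => ∀ x y : α, x < y → f x < f y)
    (fun f => by rw [Finset.mem_filter]; simp) x y hxy h4
  linarith

end Pool.Agent.Results.MP_6e2e82_co.GapUpperBound
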