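import Pool.Agent.Y491.HG.Main

/-!
# Average height gaps below one: thin posets, and all posets without nearly balanced pairs

The form of the statements is that of frozen statement S09381 (`L` is the set of the linear
extensions).

* For every `K`, every finite poset which is not a chain and in which every element is incomparable to
  at most `K` elements has distinct elements `x`, `y` with `0 ≤ h(y) - h(x) ≤ 1 - γ_K`, where
  `γ_K = 1 / ((K+1) (2 K (K+1) (2K+1) + 1))`.
* There is an absolute constant `B` such that, for every `ε` with `0 < ε < 1/2`, every finite poset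
  which is not a chain and in which no pair has a probability within `ε` of `1/2` has distinct
  elements `x`, `y` with `0 ≤ h(y) - h(x) ≤ 1 - exp (-B log(2/ε)³ / ε⁴)`.

So the answer to Q1 is yes for all posets whose balance constant is at most `1/2 - ε`, for every fixed
`ε`; in particular for all counterexamples to the 1/3-2/3 conjecture (`ε = 1/6`), if there are any.

Proof of the first part.  Let all gaps be larger than `1 - γ`.  Enumerate the elements by the average
height, and let `J(m)` be the expected number of pairs in reversed order across the cut `m`.  The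
average position of the element with index `m` is `m + J(m+1) - J(m)`, so the increments of `J` drop
by less than `γ` in one step.  At the first index with an incomparable partner `J` vanishes and the
increment is at least `1/(K+1)`, so `J` grows linearly for a long time; but `J ≤ (2K+1)K` in a
`K`-thin poset, and `J = 0` at the end.  The second part follows with the earlier theorem that a
poset has a pair within `ε` of perfect balance as soon as some element is incomparable to
`exp (B₀ log(2/ε)³ / ε⁴)` elements.
-/

set_option autoImplicit false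

open scoped Classical

namespace Pool.Agent.Results.MP_6e2e82_co.UnbalancedPosets

theorem result :
    (∀ (K : ℕ) (α : Type) [Fintype α] [PartialOrder α], (∃ a b : α, ¬ a ≤ b ∧ ¬ b ≤ a) →
      (∀ x : α, Nat.card {w : α // ¬ w ≤ x ∧ ¬ x ≤ w} ≤ K) →
      ∀ L : Finset (α ≃ Fin (Fintype.card α)),
        (∀ f : α ≃ Fin (Fintype.card α), f ∈ L ↔ ∀ x y : α, x < y → f x < f y) →
        ∃ x y : α, x ≠ y ∧
          0 ≤ (∑ f ∈ L, ((f y : ℕ) : ℝ)) / (L.card : ℝ)
              - (∑ f ∈ L, ((f x : ℕ) : ℝ)) / (L.card : ℝ) ∧
          (∑ f ∈ L, ((f y : ℕ) : ℝ)) / (L.card : ℝ)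
              - (∑ f ∈ L, ((f x : ℕ) : ℝ)) / (L.card : ℝ) ≤
            1 - 1 / (((K : ℝ) + 1) * (2 * ((K : ℝ) + 1) * (2 * K + 1) * K + 1))) ∧
    (∃ B : ℝ, 0 < B ∧ ∀ ε : ℝ, 0 < ε → ε < 1 / 2 →
      ∀ (α : Type) [Fintype α] [PartialOrder α], (∃ a b : α, ¬ a ≤ b ∧ ¬ b ≤ a) →
      ∀ L : Finset (α ≃ Fin (Fintype.card α)),
        (∀ f : α ≃ Fin (Fintype.card α), f ∈ L ↔ ∀ x y : α, x < y → f x < f y) →
        (∀ x y : α, x ≠ y →
          ((L.filter fun f => f x < f y).card : ℝ) / (L.card : ℝ) < 1 / 2 - ε ∨
          1 / 2 + ε < ((L.filter fun f => f x < f y).card : ℝ) / (L.card : ℝ)) →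
        ∃ x y : α, x ≠ y ∧
          0 ≤ (∑ f ∈ L, ((f y : ℕ) : ℝ)) / (L.card : ℝ)
              - (∑ f ∈ L, ((f x : ℕ) : ℝ)) / (L.card : ℝ) ∧
          (∑ f ∈ L, ((f y : ℕ) : ℝ)) / (L.card : ℝ)
              - (∑ f ∈ L, ((f x : ℕ) : ℝ)) / (L.card : ℝ) ≤
            1 - Real.exp (-(B * Real.log (2 / ε) ^ 3 / ε ^ 4))) :=
  ⟨fun K α _ _ hinc hthin L hL => Pool.Agent.Y491.HG.part1 K α hinc hthin L hL,
    Pool.Agent.Y491.HG.part2⟩

end Pool.Agent.Results.MP_6e2e82_co.UnbalancedPosets
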